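import Pool.Agent.X29.EV.Main

set_option autoImplicit false

/-! # Random vectors: no condition on the size of the coordinates -/

namespace Pool.Agent.X29.EV

open Finset MeasureTheory Filter
open Pool.Agent.H469R2.NK (e norm_e e_add e_zero conj_e)
open Pool.Agent.W147.PS (ff ff_compare ev_pow)
open Pool.Agent.Y961.JR

/-- integer vectors equidistributed modulo one `q` are rarely small -/
lemma smallZ {Ω : Type} [MeasurableSpace Ω] (μ : Measure Ω) [IsProbabilityMeasure μ] (r : ℕ)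
    (V : Ω → Fin r → ℤ) (hV : Measurable V) (q : ℕ) (hq : 1 ≤ q) (E : ℝ)
    (hE : ∀ ρ : Fin r → ℤ, |μ.real {x | ∀ j, (q : ℤ) ∣ V x j - ρ j} - 1 / (q : ℝ) ^ r| ≤ E)
    (j : Fin r) (B : ℝ) (hB : 0 ≤ B) :
    μ.real {x | |(V x j : ℝ)| < B} ≤ (2 * B + 1) * (1 / q + (q : ℝ) ^ (r - 1) * E) := by
  classical
  have hq0 : (0 : ℝ) < q := by exact_mod_cast hq
  have hqi : (0 : ℤ) < q := by exact_mod_cast hq
  have hr : 1 ≤ r := j.pos
  obtain ⟨b, hb⟩ : ∃ b : ℕ, b = ⌊B⌋₊ := ⟨_, rfl⟩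
  have hbB : (b : ℝ) ≤ B := by rw [hb]; exact Nat.floor_le hB
  -- the marginal distribution
  have hmarg : ∀ t : ℤ, μ.real {x | (q : ℤ) ∣ V x j - t} ≤ 1 / q + (q : ℝ) ^ (r - 1) * E := by
    intro t
    set Φ : Finset (Fin r → ℕ) := Fintype.piFinset (fun i => if i = j then {0} else range q) with hΦ
    have hcard : Φ.card = q ^ (r - 1) := by
      rw [hΦ, Fintype.card_piFinset]
      rw [← Finset.mul_prod_erase _ _ (mem_univ j)]
      rw [if_pos rfl, card_singleton, one_mul]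
      rw [Finset.prod_congr rfl (g := fun _ => q)]
      · rw [prod_const, card_erase_of_mem (mem_univ j), card_univ, Fintype.card_fin]
      · intro i hi
        rw [if_neg (ne_of_mem_erase hi), card_range]
    have hsub : {x | (q : ℤ) ∣ V x j - t} ⊆ ⋃ φ ∈ Φ, {x | ∀ i, (q : ℤ) ∣ V x i -
        (if i = j then t else (φ i : ℤ))} := by
      intro x hx
      rw [Set.mem_iUnion₂]
      refine ⟨fun i => if i = j then 0 else (V x i % q).toNat, ?_, ?_⟩
      · rw [hΦ, Fintype.mem_piFinset]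
        intro i
        by_cases hi : i = j
        · simp [hi]
        · simp only [if_neg hi, mem_range]
          have h1 := Int.emod_nonneg (V x i) hqi.ne'
          have h2 := Int.emod_lt_of_pos (V x i) hqi
          omega
      · intro i
        by_cases hi : i = j
        · simp only [hi, if_true]
          exact hx
        · simp only [if_neg hi]
          have h1 := Int.emod_nonneg (V x i) hqi.ne'
          rw [Int.toNat_of_nonneg h1]
          exact Int.dvd_self_sub_emod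
    have h1 : μ.real {x | (q : ℤ) ∣ V x j - t} ≤ ∑ φ ∈ Φ, μ.real {x | ∀ i, (q : ℤ) ∣ V x i -
        (if i = j then t else (φ i : ℤ))} :=
      (measureReal_mono hsub (by exact measure_ne_top _ _)).trans (measureReal_biUnion_finset_le _ _)
    refine h1.trans ?_
    have h2 : ∀ φ ∈ Φ, μ.real {x | ∀ i, (q : ℤ) ∣ V x i - (if i = j then t else (φ i : ℤ))} ≤
        1 / (q : ℝ) ^ r + E := by
      intro φ _
      have := (abs_le.1 (hE (fun i => if i = j then t else (φ i : ℤ)))).2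
      linarith
    refine (sum_le_sum h2).trans (le_of_eq ?_)
    rw [sum_const, hcard, nsmul_eq_mul]
    push_cast
    rw [mul_add]
    congr 1
    obtain ⟨r', rfl⟩ : ∃ r', r = r' + 1 := ⟨r - 1, by omega⟩
    rw [Nat.add_sub_cancel, pow_succ]
    field_simp
  have hsub : {x | |(V x j : ℝ)| < B} ⊆ ⋃ t ∈ Icc (-(b : ℤ)) b, {x | (q : ℤ) ∣ V x j - t} := by
    intro x hx
    have hx' : |(V x j : ℝ)| < B := hx
    rw [Set.mem_iUnion₂]
    refine ⟨V x j, ?_, by simp⟩
    rw [mem_Icc, ← abs_le]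
    have h1 : ((V x j).natAbs : ℝ) ≤ B := by
      rw [Nat.cast_natAbs]
      push_cast
      exact hx'.le
    have h2 : (V x j).natAbs ≤ b := by rw [hb]; exact Nat.le_floor h1
    rw [Int.abs_eq_natAbs]
    exact_mod_cast h2
  have h1 := (measureReal_mono (μ := μ) hsub (by exact measure_ne_top _ _)).trans
    (measureReal_biUnion_finset_le _ _)
  refine h1.trans ((sum_le_sum fun t _ => hmarg t).trans ?_)
  rw [sum_const, Int.card_Icc, nsmul_eq_mul]
  have hc : (((b : ℤ) + 1 - -(b : ℤ)).toNat : ℝ) = 2 * b + 1 := by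
    have : ((b : ℤ) + 1 - -(b : ℤ)).toNat = 2 * b + 1 := by omega
    rw [this]
    push_cast
    ring
  rw [hc]
  have hpos : 0 ≤ 1 / (q : ℝ) + (q : ℝ) ^ (r - 1) * E := by
    have h2 : 0 ≤ E := (abs_nonneg _).trans (hE 0)
    positivity
  exact mul_le_mul_of_nonneg_right (by linarith) hpos

/-- **Random vectors of integers** equidistributed modulo the small integers -/
theorem integersF (r : ℕ) (hr : 1 ≤ r) (η : ℝ) (h0 : 0 < η) (h1 : η ≤ 1) :
    ∃ κ : ℝ, 0 < κ ∧ ∀ᶠ M : ℝ in atTop, ∀ (Ω : Type) (_ : MeasurableSpace Ω) (μ : Measure Ω),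
    IsProbabilityMeasure μ → ∀ V : Ω → Fin r → ℤ, Measurable V →
    (∀ q : ℕ, 1 ≤ q → (q : ℝ) ≤ M ^ η → ∀ ρ : Fin r → ℤ,
      |μ.real {x | ∀ j, (q : ℤ) ∣ V x j - ρ j} - 1 / (q : ℝ) ^ r| ≤ M ^ (-η)) →
    M ^ (-η) ≤ μ.real {x | ∀ j, ∀ p : ℕ, p.Prime → κ * ff M < |(p : ℝ) - V x j|} := by
  classical
  have hr1 : (1 : ℝ) ≤ r := by exact_mod_cast hr
  have hr0 : (0 : ℝ) < r := by linarith
  obtain ⟨η', hη'⟩ : ∃ η' : ℝ, η' = η / (8 * r) := ⟨_, rfl⟩
  have hη'0 : 0 < η' := by rw [hη']; positivity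
  have hη'r : η' * (8 * r) = η := by rw [hη']; field_simp
  have hη'η : 8 * η' ≤ η := by nlinarith
  obtain ⟨κ, hκ, hc⟩ := integers r hr η' hη'0 (by linarith)
  refine ⟨κ, hκ, ?_⟩
  filter_upwards [hc, eventually_ge_atTop (1 : ℝ), ev_pow (-(2 * η')) (-η') (9 * r) (by linarith),
    ev_pow 0 (4 * η') 1 (by linarith)] with M hcM hM1 hM9 hMe
  intro Ω _ μ hμ V hV hdist
  have hM0 : 0 < M := by linarith
  have hmono : ∀ x y : ℝ, x ≤ y → M ^ x ≤ M ^ y := fun x y h =>
    Real.rpow_le_rpow_of_exponent_le hM1 h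
  refine le_trans (hmono _ _ (by linarith)) (hcM Ω _ μ hμ V hV ?_ ?_)
  · -- the modulus `q ≈ M ^ (4 η')`
    obtain ⟨q, hqd⟩ : ∃ q : ℕ, q = ⌊M ^ (4 * η')⌋₊ := ⟨_, rfl⟩
    have hMp : 1 ≤ M ^ (4 * η') := by
      rw [Real.rpow_zero] at hMe
      linarith
    have hq1 : 1 ≤ q := by
      rw [hqd]
      exact Nat.le_floor (by exact_mod_cast hMp)
    have hqM : (q : ℝ) ≤ M ^ (4 * η') := by
      rw [hqd]
      exact Nat.floor_le (Real.rpow_nonneg hM0.le _)
    have hqM2 : M ^ (4 * η') ≤ 2 * q := by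
      have h2 := Nat.lt_floor_add_one (M ^ (4 * η'))
      rw [← hqd] at h2
      have h3 : (1 : ℝ) ≤ q := by exact_mod_cast hq1
      linarith
    have hq0 : (0 : ℝ) < q := by exact_mod_cast hq1
    have hsm := fun j => smallZ μ r V hV q hq1 (M ^ (-η)) (hdist q hq1 (hqM.trans (hmono _ _ (by linarith))))
      j (M ^ η') (Real.rpow_nonneg hM0.le _)
    have hb1 : 1 / (q : ℝ) ≤ 2 * M ^ (-(4 * η')) := by
      have h2 : 0 < M ^ (4 * η') := Real.rpow_pos_of_pos hM0 _
      rw [Real.rpow_neg hM0.le, ← div_eq_mul_inv, div_le_div_iff₀ hq0 h2]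
      linarith
    have hb2 : (q : ℝ) ^ (r - 1) * M ^ (-η) ≤ M ^ (-(4 * η')) := by
      have h2 : (q : ℝ) ^ (r - 1) ≤ (M ^ (4 * η')) ^ (r - 1) := pow_le_pow_left₀ hq0.le hqM _
      have h3 : (M ^ (4 * η')) ^ (r - 1) = M ^ (4 * η' * ((r - 1 : ℕ) : ℝ)) := by
        rw [← Real.rpow_natCast, ← Real.rpow_mul hM0.le]
      rw [h3] at h2
      refine (mul_le_mul_of_nonneg_right h2 (Real.rpow_nonneg hM0.le _)).trans ?_
      rw [← Real.rpow_add hM0]
      apply hmono
      have h4 : ((r - 1 : ℕ) : ℝ) = r - 1 := by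
        push_cast [Nat.cast_sub hr]
        ring
      rw [h4]
      nlinarith
    have hsub : {x | ∃ j, |(V x j : ℝ)| < M ^ η'} ⊆ ⋃ j ∈ (univ : Finset (Fin r)),
        {x | |(V x j : ℝ)| < M ^ η'} := by
      rintro x ⟨j, hj⟩
      rw [Set.mem_iUnion₂]
      exact ⟨j, mem_univ j, hj⟩
    refine (measureReal_mono hsub (by exact measure_ne_top _ _)).trans
      ((measureReal_biUnion_finset_le _ _).trans ?_)
    have hMη' : 1 ≤ M ^ η' := by
      have := hmono 0 η' hη'0.le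
      rwa [Real.rpow_zero] at this
    have h5 : ∀ j ∈ (univ : Finset (Fin r)), μ.real {x | |(V x j : ℝ)| < M ^ η'} ≤ 9 * M ^ (-(3 * η')) := by
      intro j _
      refine (hsm j).trans ?_
      calc (2 * M ^ η' + 1) * (1 / (q : ℝ) + (q : ℝ) ^ (r - 1) * M ^ (-η))
          ≤ (3 * M ^ η') * (3 * M ^ (-(4 * η'))) := by
            apply mul_le_mul (by linarith) (by linarith) _ (by positivity)
            positivity
        _ = 9 * (M ^ η' * M ^ (-(4 * η'))) := by ring
        _ = 9 * M ^ (-(3 * η')) := by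
            rw [← Real.rpow_add hM0]
            congr 2
            ring
    refine (sum_le_sum h5).trans ?_
    rw [sum_const, card_univ, Fintype.card_fin, nsmul_eq_mul]
    have h6 : M ^ (-(3 * η')) ≤ M ^ (-(2 * η')) := hmono _ _ (by linarith)
    calc (r : ℝ) * (9 * M ^ (-(3 * η'))) ≤ r * (9 * M ^ (-(2 * η'))) := by gcongr
      _ = 9 * r * M ^ (-(2 * η')) := by ring
      _ ≤ _ := hM9
  · intro q hq hqM ρ
    exact (hdist q hq (hqM.trans (hmono _ _ (by linarith))) ρ).trans (hmono _ _ (by linarith))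

end Pool.Agent.X29.EV
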