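import Pool.Agent.X29.EV.Free

set_option autoImplicit false

/-! # Random vectors of real numbers: no condition on the size and the signs of the coordinates -/

namespace Pool.Agent.X29.EV

open Finset MeasureTheory Filter
open Pool.Agent.H469R2.NK (e norm_e e_add e_zero conj_e)
open Pool.Agent.W147.PS (ff ff_compare ev_pow)
open Pool.Agent.Y961.JR

lemma no_prime_abs (κ X : ℝ) (h1 : κ * ff X + 1 ≤ (Real.log X) ^ 2) (h2 : (Real.log X) ^ 2 ≤ X / 2)
    (h3 : X ^ (1 / 10 : ℝ) < X / 2) (a : ℝ) (ha : X ≤ |a|)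
    (h : ∀ m : ℤ, |(m : ℝ) - ⌊a⌋| ≤ κ * ff X + 1 →
      ∃ p : ℕ, p.Prime ∧ (p : ℝ) ≤ X ^ (1 / 10 : ℝ) ∧ (p : ℤ) ∣ m) (q : ℕ) (hq : q.Prime) :
    κ * ff X < |(q : ℝ) - a| := by
  by_contra hcon
  push Not at hcon
  have h5 : |((q : ℤ) : ℝ) - ⌊a⌋| ≤ κ * ff X + 1 := by
    have h6 := Int.fract_nonneg a
    have h7 := Int.fract_lt_one a
    have h8 : (⌊a⌋ : ℝ) + Int.fract a = a := Int.floor_add_fract _
    have h9 := abs_le.mp hcon
    push_cast
    rw [abs_le]
    constructor <;> linarith [h9.1, h9.2]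
  obtain ⟨p, hp, hpX, hpd⟩ := h q h5
  have h6 : p = q := (Nat.prime_dvd_prime_iff_eq hp hq).mp (by exact_mod_cast hpd)
  rw [h6] at hpX
  have h7 : |a| ≤ |(q : ℝ) - a| + q := by
    have h8 : a = -((q : ℝ) - a) + q := by ring
    calc |a| = |-((q : ℝ) - a) + q| := by rw [← h8]
      _ ≤ |-((q : ℝ) - a)| + |(q : ℝ)| := abs_add_le _ _
      _ = _ := by rw [abs_neg, Nat.abs_cast]
  linarith

/-- the joint criterion for vectors of real numbers of both signs -/
theorem crit_abs (r : ℕ) (hr : 1 ≤ r) : ∃ κ : ℝ, 0 < κ ∧ ∃ X₀ : ℝ, ∀ X : ℝ, X₀ ≤ X →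
    ∀ (ι : Type) (s : Finset ι) (a : ι → Fin r → ℝ), s.Nonempty → (∀ i ∈ s, ∀ j, X ≤ |a i j|) →
    (∀ q : ℕ, 1 ≤ q → (q : ℝ) ≤ X ^ (2 / 5 : ℝ) → ∀ h : Fin r → ℤ, h ≠ 0 →
      (∀ j, |(h j : ℝ)| ≤ X ^ (10 * r)) →
      ‖∑ i ∈ s, e (∑ j, (h j : ℝ) * (a i j / q))‖ ≤ s.card * X ^ (-(20 * (r : ℝ) ^ 2))) →
    ∃ i ∈ s, ∀ j, ∀ q : ℕ, q.Prime → κ * ff X < |(q : ℝ) - a i j| := by
  obtain ⟨κ, hκ, X₁, h1⟩ := critJ r hr
  obtain ⟨X₂, h2⟩ := eventually_atTop.mp (ev_bounds r r hr le_rfl)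
  obtain ⟨X₃, h3⟩ := eventually_atTop.mp ev_small
  refine ⟨κ, hκ, max X₁ (max X₂ X₃), ?_⟩
  intro X hX ι s a hs ha hE
  obtain ⟨b1, b2⟩ := h2 X (((le_max_left _ _).trans (le_max_right _ _)).trans hX)
  obtain ⟨c1, c2⟩ := h3 X (((le_max_right _ _).trans (le_max_right _ _)).trans hX)
  obtain ⟨hfl, hcr⟩ := h1 X ((le_max_left _ _).trans hX)
  have hX0 : 0 < X := by linarith
  obtain ⟨i, hi, hi2⟩ := hcr ι s (fun i j => ⌊a i j⌋) hs (by
    intro q hq hqX ρ
    obtain ⟨k1, k2, k3, k4⟩ := b2 q hq hqX s.card (Nat.cast_nonneg _)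
    have hd := discJ hr s a ⌈X ^ (3 * r)⌉₊ q k1 hq k2 (s.card * X ^ (-(20 * (r : ℝ) ^ 2)))
      (by positivity) (fun h hh hh2 => hE q hq hqX h hh (fun j => by
        have h5 : ((h j).natAbs : ℝ) < ((⌈X ^ (3 * r)⌉₊ : ℕ) : ℝ) ^ 3 := by exact_mod_cast hh2 j
        have h6 : |(h j : ℝ)| = ((h j).natAbs : ℝ) := by
          rw [Nat.cast_natAbs]; push_cast; rfl
        rw [h6]
        exact h5.le.trans k3)) ρ
    refine hd.trans (k4.trans ?_)
    have : 0 ≤ (s.card : ℝ) * X ^ (-(2 * (r : ℝ))) := by positivity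
    linarith)
  exact ⟨i, hi, fun j q hq => no_prime_abs κ X hfl c1 c2 (a i j) (ha i hi j) (hi2 j) q hq⟩

lemma e_int_zero : e 0 = 1 := e_zero

/-- a random number with a small characteristic function at small multiples of `1 / q` is rarely small -/
lemma smallR {Ω : Type} [MeasurableSpace Ω] (μ : Measure Ω) [IsProbabilityMeasure μ]
    (v : Ω → ℝ) (hv : Measurable v) (q N : ℕ) (hq : 1 ≤ q) (hN : 1 ≤ N) (B E : ℝ)
    (hE0 : 0 ≤ E) (hNB : 8 * B * N ≤ q)
    (hE : ∀ t : ℤ, t ≠ 0 → |(t : ℝ)| < N → ‖∫ x, e (t * (v x / q)) ∂μ‖ ≤ E) :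
    μ.real {x | |v x| < B} ≤ 2 / N + 2 * E := by
  classical
  have hq0 : (0 : ℝ) < q := by exact_mod_cast hq
  have hN0 : (0 : ℝ) < N := by exact_mod_cast hN
  obtain ⟨S, hS⟩ : ∃ S : Ω → ℂ, S = fun x => ∑ h ∈ range N, e ((h : ℝ) * (v x / q)) := ⟨_, rfl⟩
  have hem : ∀ c : ℝ, Measurable (fun x => e (c * (v x / q))) := fun c =>
    e_meas.comp ((hv.div_const _).const_mul _)
  have hei : ∀ c : ℝ, Integrable (fun x => e (c * (v x / q))) μ := fun c =>
    Integrable.of_bound (C := 1) (hem c).aestronglyMeasurable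
      (Filter.Eventually.of_forall fun x => (norm_e _).le)
  have hSm : Measurable S := by
    rw [hS]
    exact Finset.measurable_sum _ fun h _ => hem h
  have hSb : ∀ x, ‖S x‖ ≤ N := by
    intro x
    rw [hS]
    refine (norm_sum_le _ _).trans ?_
    refine (sum_le_sum (g := fun _ => (1 : ℝ)) fun h _ => (norm_e _).le).trans ?_
    simp
  -- the lower bound on the event
  have hlow : ∀ x, |v x| < B → (N : ℝ) ^ 2 / 2 ≤ ‖S x‖ ^ 2 := by
    intro x hx
    have h1 : (N : ℝ) * (√2 / 2) ≤ (S x).re := by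
      rw [hS]
      simp only [Complex.re_sum]
      have h2 : ∀ h ∈ range N, √2 / 2 ≤ (e ((h : ℝ) * (v x / q))).re := by
        intro h hh
        have hh' : (h : ℝ) ≤ N := by exact_mod_cast (mem_range.1 hh).le
        unfold e
        rw [Complex.exp_ofReal_mul_I_re, ← Real.cos_pi_div_four, ← Real.cos_abs (2 * Real.pi * _)]
        apply Real.cos_le_cos_of_nonneg_of_le_pi (abs_nonneg _) (by linarith [Real.pi_pos])
        rw [abs_mul, abs_of_pos (by positivity : (0 : ℝ) < 2 * Real.pi), abs_mul, Nat.abs_cast,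
          abs_div, abs_of_pos hq0]
        have h3 : (h : ℝ) * (|v x| / q) ≤ 1 / 8 := by
          rw [mul_div_assoc', div_le_div_iff₀ hq0 (by norm_num)]
          have h4 : (h : ℝ) * |v x| ≤ N * B := mul_le_mul hh' hx.le (abs_nonneg _) hN0.le
          linarith
        calc 2 * Real.pi * ((h : ℝ) * (|v x| / q)) ≤ 2 * Real.pi * (1 / 8) :=
              mul_le_mul_of_nonneg_left h3 (by positivity)
          _ = Real.pi / 4 := by ring
      refine le_trans (le_of_eq ?_) (sum_le_sum h2)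
      rw [sum_const, card_range, nsmul_eq_mul]
    have h2 : (S x).re ≤ ‖S x‖ := Complex.re_le_norm _
    have h3 : (N : ℝ) * (√2 / 2) ≤ ‖S x‖ := h1.trans h2
    have h4 := pow_le_pow_left₀ (by positivity) h3 2
    refine le_trans (le_of_eq ?_) h4
    rw [mul_pow, div_pow, Real.sq_sqrt (by norm_num)]
    ring
  -- the mean square
  have hmean : ∫ x, ‖S x‖ ^ 2 ∂μ ≤ N + (N : ℝ) ^ 2 * E := by
    have h1 : ((∫ x, ‖S x‖ ^ 2 ∂μ : ℝ) : ℂ) =
        ∑ h ∈ range N, ∑ h' ∈ range N, ∫ x, e (((h : ℝ) - h') * (v x / q)) ∂μ := by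
      rw [← integral_complex_ofReal]
      have h2 : ∀ x, ((‖S x‖ ^ 2 : ℝ) : ℂ) =
          ∑ h ∈ range N, ∑ h' ∈ range N, e (((h : ℝ) - h') * (v x / q)) := by
        intro x
        have h3 : ((‖S x‖ ^ 2 : ℝ) : ℂ) = S x * (starRingEnd ℂ) (S x) := by
          rw [Complex.mul_conj, Complex.normSq_eq_norm_sq]
        rw [h3, hS]
        simp only [map_sum]
        rw [sum_mul_sum]
        refine sum_congr rfl fun h _ => sum_congr rfl fun h' _ => ?_
        rw [conj_e, ← e_add]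
        congr 1
        ring
      simp only [h2]
      rw [integral_finset_sum _ fun h _ => integrable_finset_sum _ fun h' _ => hei _]
      refine sum_congr rfl fun h _ => ?_
      rw [integral_finset_sum _ fun h' _ => hei _]
    have h2 : ‖((∫ x, ‖S x‖ ^ 2 ∂μ : ℝ) : ℂ)‖ ≤ N + (N : ℝ) ^ 2 * E := by
      rw [h1]
      have h3 : ∀ h ∈ range N, ∀ h' ∈ range N, ‖∫ x, e (((h : ℝ) - h') * (v x / q)) ∂μ‖ ≤
          (if h = h' then 1 else 0) + E := by
        intro h hh h' hh'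
        rw [mem_range] at hh hh'
        by_cases heq : h = h'
        · rw [if_pos heq, heq, sub_self]
          simp only [zero_mul, e_zero]
          rw [integral_const, probReal_univ, one_smul, norm_one]
          linarith
        · rw [if_neg heq, zero_add]
          have h4 := hE ((h : ℤ) - h') (by omega) (by
            push_cast
            have a1 : (h : ℝ) < N := by exact_mod_cast hh
            have a2 : (h' : ℝ) < N := by exact_mod_cast hh'
            have a3 : (0 : ℝ) ≤ h := Nat.cast_nonneg _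
            have a4 : (0 : ℝ) ≤ h' := Nat.cast_nonneg _
            rw [abs_lt]
            constructor <;> linarith)
          push_cast at h4
          exact h4
      refine (norm_sum_le _ _).trans ?_
      refine (sum_le_sum fun h hh => (norm_sum_le _ _).trans (sum_le_sum (h3 h hh))).trans
        (le_of_eq ?_)
      simp only [sum_add_distrib, sum_ite_eq, sum_const, card_range, nsmul_eq_mul]
      have h5 : ∑ h ∈ range N, (if h ∈ range N then (1 : ℝ) else 0) = N := by
        rw [sum_congr rfl fun h hh => if_pos hh]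
        simp
      rw [h5]
      ring
    rw [Complex.norm_real] at h2
    exact (le_abs_self _).trans h2
  have hint : Integrable (fun x => ‖S x‖ ^ 2) μ := by
    refine Integrable.of_bound (C := (N : ℝ) ^ 2) (hSm.norm.pow_const 2).aestronglyMeasurable
      (Filter.Eventually.of_forall fun x => ?_)
    rw [Real.norm_of_nonneg (by positivity)]
    exact pow_le_pow_left₀ (norm_nonneg _) (hSb x) 2
  have hmarkov := mul_meas_ge_le_integral_of_nonneg (μ := μ) (f := fun x => ‖S x‖ ^ 2)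
    (Filter.Eventually.of_forall fun x => by positivity) hint ((N : ℝ) ^ 2 / 2)
  have hsub : μ.real {x | |v x| < B} ≤ μ.real {x | (N : ℝ) ^ 2 / 2 ≤ ‖S x‖ ^ 2} :=
    measureReal_mono (fun x hx => hlow x hx) (measure_ne_top _ _)
  have h6 : (N : ℝ) ^ 2 / 2 * μ.real {x | |v x| < B} ≤ N + (N : ℝ) ^ 2 * E :=
    ((mul_le_mul_of_nonneg_left hsub (by positivity)).trans hmarkov).trans hmean
  have h7 : (N : ℝ) ^ 2 / 2 * μ.real {x | |v x| < B} ≤ (N : ℝ) ^ 2 / 2 * (2 / N + 2 * E) := by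
    refine h6.trans (le_of_eq ?_)
    field_simp
  exact le_of_mul_le_mul_left h7 (by positivity)

/-- **Random vectors of real numbers** with a small characteristic function at the small rational
vectors -/
theorem realsF (r : ℕ) (hr : 1 ≤ r) (η : ℝ) (h0 : 0 < η) (h1 : η ≤ 1) :
    ∃ κ : ℝ, 0 < κ ∧ ∀ᶠ M : ℝ in atTop, ∀ (Ω : Type) (_ : MeasurableSpace Ω) (μ : Measure Ω),
    IsProbabilityMeasure μ → ∀ V : Ω → Fin r → ℝ, Measurable V →
    (∀ q : ℕ, 1 ≤ q → (q : ℝ) ≤ M ^ η → ∀ h : Fin r → ℤ, h ≠ 0 → (∀ j, |(h j : ℝ)| ≤ M ^ η) →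
      ‖∫ x, e (∑ j, (h j : ℝ) * (V x j / q)) ∂μ‖ ≤ M ^ (-η)) →
    M ^ (-η) ≤ μ.real {x | ∀ j, ∀ p : ℕ, p.Prime → κ * ff M < |(p : ℝ) - V x j|} := by
  classical
  obtain ⟨κ, hκ, X₀, hc⟩ := crit_abs r hr
  have hr1 : (1 : ℝ) ≤ r := by exact_mod_cast hr
  have hr0 : (0 : ℝ) < r := by linarith
  obtain ⟨θ, hθ⟩ : ∃ θ : ℝ, θ = η / (160 * (r : ℝ) ^ 2) := ⟨_, rfl⟩
  have hr2 : (1 : ℝ) ≤ (r : ℝ) ^ 2 := one_le_pow₀ hr1
  have hrr : (r : ℝ) ≤ (r : ℝ) ^ 2 := by nlinarith
  have hθ0 : 0 < θ := by rw [hθ]; positivity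
  have hθe : θ * (160 * (r : ℝ) ^ 2) = η := by rw [hθ]; field_simp
  have hθη : 160 * θ ≤ η := by nlinarith
  have hθr : θ * r ≤ θ * (r : ℝ) ^ 2 := mul_le_mul_of_nonneg_left hrr hθ0.le
  have hθ1 : θ ≤ 1 := by linarith
  refine ⟨κ * (θ / 32) / 2, by positivity, ?_⟩
  filter_upwards [ff_compare θ hθ0 hθ1, (tendsto_rpow_atTop hθ0).eventually_ge_atTop X₀,
    eventually_ge_atTop (1 : ℝ), ev_pow (-(η / 4)) (-(η / 8)) 10 (by linarith),
    ev_pow (-(η / 4)) 0 8 (by linarith), ev_pow (-η) (-(η / 4)) 2 (by linarith),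
    Real.tendsto_log_atTop.eventually_ge_atTop (2 / (κ * (θ / 32))),
    ev_pow (η - 3) (-η) (2 * Real.pi * r) (by linarith),
    ev_pow (-(η / 2)) (-(η / 4)) (6 * r) (by linarith), ev_pow (θ + η / 2) η 32 (by linarith),
    ev_pow 0 (η / 2) 2 (by linarith)]
    with M hff hMX hM1 hM10 hM8 hM2 hMlog hMpi hM6 hM32 hMN
  intro Ω _ μ hμ V hV hdist
  have hM0 : 0 < M := by linarith
  have hmono : ∀ x y : ℝ, x ≤ y → M ^ x ≤ M ^ y := fun x y h =>
    Real.rpow_le_rpow_of_exponent_le hM1 h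
  have hone : ∀ x : ℝ, 0 ≤ x → 1 ≤ M ^ x := by
    intro x hx
    have := hmono 0 x hx
    rwa [Real.rpow_zero] at this
  rw [Real.rpow_zero] at hM8 hMN
  obtain ⟨X, hX⟩ : ∃ X : ℝ, X = M ^ θ := ⟨_, rfl⟩
  rw [← hX] at hMX
  have hX1 : 1 ≤ X := by rw [hX]; exact hone _ hθ0.le
  have hδ : X ^ (-(20 * (r : ℝ) ^ 2)) = M ^ (-(η / 8)) := by
    rw [hX, ← Real.rpow_mul hM0.le]
    congr 1
    rw [hθ]
    field_simp
    norm_num
  have hXq : X ^ (2 / 5 : ℝ) ≤ M ^ η := by
    rw [hX, ← Real.rpow_mul hM0.le]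
    apply hmono
    linarith
  have hXh : X ^ (10 * r) ≤ M ^ η := by
    rw [hX, ← Real.rpow_natCast, ← Real.rpow_mul hM0.le]
    apply hmono
    push_cast
    nlinarith
  have hE0 : 0 < M ^ (-(η / 4)) := Real.rpow_pos_of_pos hM0 _
  have hE00 : 0 < M ^ (-η) := Real.rpow_pos_of_pos hM0 _
  obtain ⟨D, hD⟩ : ∃ D : ℕ, M ^ (3 : ℝ) ≤ D := exists_nat_ge _
  have hD1 : (1 : ℝ) ≤ D := (hone 3 (by norm_num)).trans hD
  have hD0 : (0 : ℝ) < D := by linarith
  obtain ⟨W, hW⟩ : ∃ W : Ω → Fin r → ℤ, W = fun x j => ⌊(D : ℝ) * V x j⌋ := ⟨_, rfl⟩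
  have hWm : Measurable W := by
    rw [hW]
    refine measurable_pi_lambda _ fun j => ?_
    exact Int.measurable_floor.comp (((measurable_pi_apply j).comp hV).const_mul _)
  have hWV : ∀ x j, |(W x j : ℝ) / D - V x j| ≤ 1 / D := by
    intro x j
    have h2 := Int.floor_le ((D : ℝ) * V x j)
    have h3 := Int.lt_floor_add_one ((D : ℝ) * V x j)
    have e1 : (W x j : ℝ) / D - V x j = ((W x j : ℝ) - D * V x j) / D := by
      field_simp
    rw [e1, abs_div, abs_of_pos hD0]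
    apply div_le_div_of_nonneg_right _ hD0.le
    rw [hW]
    rw [abs_le]
    constructor <;> linarith
  have h1D : 1 / (D : ℝ) ≤ 1 := by
    rw [div_le_one hD0]
    exact hD1
  obtain ⟨pre, hpre'⟩ : ∃ pre : (Fin r → ℤ) → Prop,
    pre = fun w => ∀ j, X ≤ |(w j : ℝ) / D| := ⟨_, rfl⟩
  obtain ⟨good, hgood⟩ : ∃ good : (Fin r → ℤ) → Prop,
    good = fun w => ∀ j, ∀ p : ℕ, p.Prime → κ * (θ / 32) * ff M < |(p : ℝ) - (w j : ℝ) / D| := ⟨_, rfl⟩
  have hcrit : Crit pre good (testsR r D (M ^ η)) (M ^ (-(η / 8))) := by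
    intro ι s a hs ha hE
    obtain ⟨i, hi, hi2⟩ := hc X hMX ι s (fun i j => (a i j : ℝ) / D) hs (by
      intro i hi j
      have h3 := ha i hi
      rw [hpre'] at h3
      exact h3 j) (by
      intro q hq hqX h hh hhQ
      rw [hδ]
      exact hE _ ⟨q, h, hq, hqX.trans hXq, hh, fun j => (hhQ j).trans hXh, rfl⟩)
    refine ⟨i, hi, ?_⟩
    rw [hgood]
    intro j p hp
    refine lt_of_le_of_lt ?_ (hi2 j p hp)
    rw [hX]
    exact ff_scaled κ θ M hκ hθ1 hM1 hff.2
  have hmap : IsProbabilityMeasure (μ.map W) := Measure.isProbabilityMeasure_map hWm.aemeasurable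
  have hall : ∀ S : Set (Fin r → ℤ), MeasurableSet S := fun S => S.to_countable.measurableSet
  have hreal : ∀ S : Set (Fin r → ℤ), (μ.map W).real S = μ.real (W ⁻¹' S) := fun S =>
    map_measureReal_apply hWm (hall S)
  have key := random pre good (testsR r D (M ^ η)) (M ^ (-(η / 8))) (M ^ (-(η / 4)))
    (by
      rintro φ ⟨q, h, -, -, -, -, rfl⟩ x
      exact (norm_e _).le) hcrit hE0 (by linarith) hM10 (μ.map W) (by
    -- the small values
    rw [hreal]
    obtain ⟨N, hN⟩ : ∃ N : ℕ, N = ⌊M ^ (η / 2)⌋₊ := ⟨_, rfl⟩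
    obtain ⟨q, hqd⟩ : ∃ q : ℕ, q = ⌊M ^ η⌋₊ := ⟨_, rfl⟩
    have hNM : (N : ℝ) ≤ M ^ (η / 2) := by
      rw [hN]; exact Nat.floor_le (Real.rpow_nonneg hM0.le _)
    have hN1 : 1 ≤ N := by rw [hN]; exact Nat.le_floor (by exact_mod_cast hone _ (by linarith))
    have hN0 : (0 : ℝ) < N := by exact_mod_cast hN1
    have hN2 : M ^ (η / 2) ≤ 2 * N := by
      have h2 := Nat.lt_floor_add_one (M ^ (η / 2))
      rw [← hN] at h2
      have h3 : (1 : ℝ) ≤ N := by exact_mod_cast hN1
      linarith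
    have hqM : (q : ℝ) ≤ M ^ η := by
      rw [hqd]; exact Nat.floor_le (Real.rpow_nonneg hM0.le _)
    have hq1 : 1 ≤ q := by rw [hqd]; exact Nat.le_floor (by exact_mod_cast hone _ h0.le)
    have hq2 : M ^ η ≤ 2 * q := by
      have h2 := Nat.lt_floor_add_one (M ^ η)
      rw [← hqd] at h2
      have h3 : (1 : ℝ) ≤ q := by exact_mod_cast hq1
      linarith
    have hNη : (N : ℝ) ≤ M ^ η := hNM.trans (hmono _ _ (by linarith))
    have hsm : ∀ j : Fin r, μ.real {x | |V x j| < X + 1} ≤ 6 * M ^ (-(η / 2)) := by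
      intro j
      have h2 := smallR μ (fun x => V x j) ((measurable_pi_apply j).comp hV) q N hq1 hN1 (X + 1)
        (M ^ (-η)) hE00.le (by
          have h3 : 8 * (X + 1) * N ≤ 16 * (X * M ^ (η / 2)) := by
            have h4 : X * N ≤ X * M ^ (η / 2) := mul_le_mul_of_nonneg_left hNM (by linarith)
            have h5 : (N : ℝ) ≤ X * N := le_mul_of_one_le_left hN0.le hX1
            linarith
          have h4 : X * M ^ (η / 2) = M ^ (θ + η / 2) := by
            rw [hX, ← Real.rpow_add hM0]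
          rw [h4] at h3
          linarith) (by
        intro t ht htN
        have h3 := hdist q hq1 hqM (fun i => if i = j then t else 0) (by
          intro h
          have := congrFun h j
          simp at this
          exact ht this) (by
          intro i
          by_cases hi : i = j
          · simp only [hi, if_true]
            exact htN.le.trans hNη
          · simp only [hi, if_false, Int.cast_zero, abs_zero]
            exact Real.rpow_nonneg hM0.le _)
        have h4 : ∀ x, ∑ i, (((if i = j then t else 0 : ℤ)) : ℝ) * (V x i / q) = t * (V x j / q) := by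
          intro x
          rw [Finset.sum_eq_single j]
          · simp
          · intro i _ hi
            simp [hi]
          · simp
        simp only [h4] at h3
        exact h3)
      refine h2.trans ?_
      have h3 : 2 / (N : ℝ) ≤ 4 * M ^ (-(η / 2)) := by
        have h4 : 0 < M ^ (η / 2) := Real.rpow_pos_of_pos hM0 _
        rw [Real.rpow_neg hM0.le, ← div_eq_mul_inv, div_le_div_iff₀ hN0 h4]
        linarith
      have h4 : M ^ (-η) ≤ M ^ (-(η / 2)) := hmono _ _ (by linarith)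
      linarith
    have hsub : W ⁻¹' {w | ¬ pre w} ⊆ ⋃ j ∈ (univ : Finset (Fin r)), {x | |V x j| < X + 1} := by
      intro x hx
      rw [Set.mem_preimage, Set.mem_setOf_eq, hpre'] at hx
      push Not at hx
      obtain ⟨j, hj⟩ := hx
      rw [Set.mem_iUnion₂]
      refine ⟨j, mem_univ j, ?_⟩
      show |V x j| < X + 1
      have h3 : |V x j| ≤ |(W x j : ℝ) / D| + |(W x j : ℝ) / D - V x j| := by
        have e1 : V x j = (W x j : ℝ) / D + -((W x j : ℝ) / D - V x j) := by ring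
        calc |V x j| = |(W x j : ℝ) / D + -((W x j : ℝ) / D - V x j)| := by rw [← e1]
          _ ≤ |(W x j : ℝ) / D| + |-((W x j : ℝ) / D - V x j)| := abs_add_le _ _
          _ = _ := by rw [abs_neg]
      have h4 := hWV x j
      linarith
    refine (measureReal_mono hsub (by exact measure_ne_top _ _)).trans
      ((measureReal_biUnion_finset_le _ _).trans ((sum_le_sum fun j _ => hsm j).trans ?_))
    rw [sum_const, card_univ, Fintype.card_fin, nsmul_eq_mul]
    linarith) (by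
    rintro φ ⟨q, h, hq, hqX, hh, hhQ, rfl⟩
    have hq0 : (1 : ℝ) ≤ q := by exact_mod_cast hq
    rw [integral_map hWm.aemeasurable (measurable_of_countable _).aestronglyMeasurable]
    have h3 := hdist q hq hqX h hh hhQ
    have hm1 : Measurable (fun x => e (∑ j, (h j : ℝ) * (V x j / q))) := by
      refine e_meas.comp ?_
      refine Finset.measurable_sum _ fun j _ => ?_
      exact (((measurable_pi_apply j).comp hV).div_const _).const_mul _
    have hm2 : Measurable (fun x => e (∑ j, (h j : ℝ) * (((W x j : ℝ) / D) / q))) :=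
      (measurable_of_countable (fun w : Fin r → ℤ =>
        e (∑ j, (h j : ℝ) * (((w j : ℝ) / D) / q)))).comp hWm
    have hi1 : Integrable (fun x => e (∑ j, (h j : ℝ) * (V x j / q))) μ :=
      Integrable.of_bound (C := 1) hm1.aestronglyMeasurable
        (Filter.Eventually.of_forall fun x => (norm_e _).le)
    have hi2 : Integrable (fun x => e (∑ j, (h j : ℝ) * (((W x j : ℝ) / D) / q))) μ :=
      Integrable.of_bound (C := 1) hm2.aestronglyMeasurable
        (Filter.Eventually.of_forall fun x => (norm_e _).le)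
    have h4 : ‖∫ x, (e (∑ j, (h j : ℝ) * (((W x j : ℝ) / D) / q)) -
        e (∑ j, (h j : ℝ) * (V x j / q))) ∂μ‖ ≤ M ^ (-η) := by
      refine le_trans (norm_integral_le_of_norm_le_const (C := M ^ (-η)) (Filter.Eventually.of_forall
        fun x => ?_)) (by rw [probReal_univ, mul_one])
      refine (e_sub _ _).trans ?_
      rw [← sum_sub_distrib]
      have h5 : |∑ j, ((h j : ℝ) * (((W x j : ℝ) / D) / q) - (h j : ℝ) * (V x j / q))| ≤
          r * (M ^ η * (1 / D)) := by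
        refine (abs_sum_le_sum_abs _ _).trans ?_
        refine le_trans (sum_le_sum (g := fun _ => M ^ η * (1 / D)) fun j _ => ?_) (by simp)
        have e1 : (h j : ℝ) * (((W x j : ℝ) / D) / q) - (h j : ℝ) * (V x j / q) =
            (h j : ℝ) * (((W x j : ℝ) / D - V x j) / q) := by ring
        rw [e1, abs_mul]
        refine mul_le_mul (hhQ j) ?_ (abs_nonneg _) (Real.rpow_nonneg hM0.le _)
        rw [abs_div, abs_of_pos (by linarith : (0 : ℝ) < q)]
        exact (div_le_self (abs_nonneg _) hq0).trans (hWV x j)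
      have h6 : 1 / (D : ℝ) ≤ M ^ (-3 : ℝ) := by
        rw [Real.rpow_neg hM0.le, ← one_div]
        exact one_div_le_one_div_of_le (Real.rpow_pos_of_pos hM0 _) hD
      have h7 : M ^ η * (1 / (D : ℝ)) ≤ M ^ (η - 3) := by
        calc M ^ η * (1 / (D : ℝ)) ≤ M ^ η * M ^ (-3 : ℝ) :=
              mul_le_mul_of_nonneg_left h6 (Real.rpow_nonneg hM0.le _)
          _ = _ := by rw [← Real.rpow_add hM0]; congr 1
      calc 2 * Real.pi * |∑ j, ((h j : ℝ) * (((W x j : ℝ) / D) / q) - (h j : ℝ) * (V x j / q))|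
          ≤ 2 * Real.pi * (r * M ^ (η - 3)) := by
            refine mul_le_mul_of_nonneg_left (h5.trans ?_) (by positivity)
            exact mul_le_mul_of_nonneg_left h7 (by linarith)
        _ = 2 * Real.pi * r * M ^ (η - 3) := by ring
        _ ≤ _ := hMpi
    rw [integral_sub hi2 hi1] at h4
    have h8 := norm_le_insert' (∫ x, e (∑ j, (h j : ℝ) * (((W x j : ℝ) / D) / q)) ∂μ)
      (∫ x, e (∑ j, (h j : ℝ) * (V x j / q)) ∂μ)
    linarith)
  rw [hreal] at key
  refine (hmono _ _ (by linarith)).trans (key.trans (measureReal_mono ?_))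
  intro x hx j p hp
  rw [Set.mem_preimage, Set.mem_setOf_eq, hgood] at hx
  have h10 := hx j p hp
  have h11 := hWV x j
  have h12 : |(p : ℝ) - (W x j : ℝ) / D| ≤ |(p : ℝ) - V x j| + 1 := by
    have e1 : (p : ℝ) - (W x j : ℝ) / D = ((p : ℝ) - V x j) + -((W x j : ℝ) / D - V x j) := by ring
    rw [e1]
    refine (abs_add_le _ _).trans ?_
    rw [abs_neg]
    linarith
  have h13 : 1 ≤ κ * (θ / 32) / 2 * ff M := by
    have h14 : 2 / (κ * (θ / 32)) ≤ ff M := hMlog.trans hff.1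
    rw [div_le_iff₀ (by positivity)] at h14
    linarith
  have h15 : κ * (θ / 32) * ff M = κ * (θ / 32) / 2 * ff M + κ * (θ / 32) / 2 * ff M := by ring
  linarith

end Pool.Agent.X29.EV
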