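import Mathlib

set_option autoImplicit false

/-! # From families to random variables

A criterion which provides a good member of every finite family, all of whose test averages are
small, yields a lower bound for the probability of the good event for random variables whose test
averages are small. -/

namespace Pool.Agent.X29.EV

open Finset MeasureTheory

/-- a criterion for finite families -/
def Crit {A : Type} (pre good : A → Prop) (T : Set (A → ℂ)) (δ : ℝ) : Prop :=
  ∀ (ι : Type) (s : Finset ι) (a : ι → A), s.Nonempty → (∀ i ∈ s, pre (a i)) →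
    (∀ φ ∈ T, ‖∑ i ∈ s, φ (a i)‖ ≤ s.card * δ) → ∃ i ∈ s, good (a i)

/-- weights instead of multiplicities -/
theorem weights {A : Type} (pre good : A → Prop) (T : Set (A → ℂ)) (δ E : ℝ)
    (hT : ∀ φ ∈ T, ∀ x, ‖φ x‖ ≤ 1) (hc : Crit pre good T δ) (hE : 0 < E) (hE1 : E ≤ 1 / 8)
    (hδ : 10 * E ≤ δ) (s : Finset A) (w : A → ℝ) (hw : ∀ x ∈ s, 0 ≤ w x)
    (hwE : 1 - E ≤ ∑ x ∈ s, w x) (hp : ∀ g : Finset A, g ⊆ s → (∀ x ∈ g, ¬ pre x) → ∑ x ∈ g, w x ≤ E)
    (hφ : ∀ φ ∈ T, ‖∑ x ∈ s, (w x : ℂ) * φ x‖ ≤ 2 * E) :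
    ∃ g : Finset A, g ⊆ s ∧ (∀ x ∈ g, good x) ∧ E ≤ ∑ x ∈ g, w x := by
  classical
  by_contra hcon
  push Not at hcon
  set G := s.filter (fun x => good x ∨ ¬ pre x) with hG
  have hGE : ∑ x ∈ G, w x ≤ 2 * E := by
    have h1 := hcon (s.filter (fun x => good x)) (filter_subset _ _) (fun x hx => (mem_filter.mp hx).2)
    have h2 := hp (s.filter (fun x => ¬ pre x)) (filter_subset _ _) (fun x hx => (mem_filter.mp hx).2)
    have h3 : ∑ x ∈ G, w x ≤ ∑ x ∈ s.filter (fun x => good x), w x +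
        ∑ x ∈ s.filter (fun x => ¬ pre x), w x := by
      rw [sum_filter, sum_filter, sum_filter, ← sum_add_distrib]
      refine sum_le_sum fun x hx => ?_
      have := hw x hx
      by_cases h4 : good x <;> by_cases h5 : pre x <;> simp [h4, h5, this]
    linarith
  set B := s.filter (fun x => ¬ (good x ∨ ¬ pre x)) with hB
  have hGB : ∑ x ∈ G, w x + ∑ x ∈ B, w x = ∑ x ∈ s, w x := sum_filter_add_sum_filter_not _ _ _
  obtain ⟨N, hN⟩ : ∃ N : ℕ, ((s.card : ℝ) + 1) / E ≤ N := exists_nat_ge _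
  have hN1 : (s.card : ℝ) + 1 ≤ N * E := by rwa [div_le_iff₀ hE] at hN
  have hN0 : (0 : ℝ) < N := by
    have h1 : (0 : ℝ) < s.card + 1 := by positivity
    by_contra h
    push Not at h
    have : (N : ℝ) * E ≤ 0 := mul_nonpos_of_nonpos_of_nonneg h hE.le
    linarith
  set n : A → ℕ := fun x => ⌊(N : ℝ) * w x⌋₊ with hn
  have hBs : B ⊆ s := filter_subset _ _
  have hw0 : ∀ x ∈ B, 0 ≤ w x := fun x hx => hw x (hBs hx)
  have hn1 : ∀ x ∈ B, (n x : ℝ) ≤ N * w x := fun x hx => Nat.floor_le (mul_nonneg hN0.le (hw0 x hx))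
  have hn2 : ∀ x ∈ B, N * w x - 1 ≤ (n x : ℝ) := fun x _ => (Nat.sub_one_lt_floor _).le
  set F : Finset (A × ℕ) := B.biUnion (fun x => (range (n x)).image (fun k => (x, k))) with hF
  have hsum : ∀ f : A → ℂ, ∑ i ∈ F, f i.1 = ∑ x ∈ B, (n x : ℂ) * f x := by
    intro f
    rw [hF, sum_biUnion]
    · refine sum_congr rfl fun x _ => ?_
      rw [sum_image (fun a _ b _ h => (Prod.mk.inj h).2)]
      simp
    · intro x _ y _ hxy
      rw [Function.onFun, disjoint_left]
      intro i h1 h2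
      rw [mem_image] at h1 h2
      obtain ⟨k, _, rfl⟩ := h1
      obtain ⟨l, _, h3⟩ := h2
      exact hxy (Prod.mk.inj h3).1.symm
  have hcard : (F.card : ℝ) = ∑ x ∈ B, (n x : ℝ) := by
    have h1 := hsum (fun _ => 1)
    simp only [sum_const, nsmul_eq_mul, mul_one] at h1
    exact_mod_cast h1
  have hBc : (B.card : ℝ) ≤ s.card := by exact_mod_cast card_le_card hBs
  have hBw : 1 - 3 * E ≤ ∑ x ∈ B, w x := by linarith
  have hcard2 : (N : ℝ) * (1 - 4 * E) ≤ F.card := by
    rw [hcard]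
    calc (N : ℝ) * (1 - 4 * E) ≤ N * (∑ x ∈ B, w x) - B.card := by
          have h1 : (N : ℝ) * (1 - 3 * E) ≤ N * (∑ x ∈ B, w x) := mul_le_mul_of_nonneg_left hBw hN0.le
          linarith
      _ = ∑ x ∈ B, (N * w x - 1) := by
          rw [sum_sub_distrib, mul_sum]
          simp
      _ ≤ _ := sum_le_sum fun x hx => hn2 x hx
  have hcard3 : (N : ℝ) / 2 ≤ F.card := by
    refine le_trans ?_ hcard2
    have h1 : (N : ℝ) * (1 / 2) ≤ N * (1 - 4 * E) := mul_le_mul_of_nonneg_left (by linarith) hN0.le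
    linarith
  have hFn : F.Nonempty := by
    rw [← card_pos]
    have : (0 : ℝ) < F.card := by linarith
    exact_mod_cast this
  have hmem : ∀ i ∈ F, i.1 ∈ B := by
    intro i hi
    rw [hF, mem_biUnion] at hi
    obtain ⟨x, hx, hi⟩ := hi
    rw [mem_image] at hi
    obtain ⟨k, hk, rfl⟩ := hi
    exact hx
  have hBp : ∀ x ∈ B, pre x ∧ ¬ good x := by
    intro x hx
    have := (mem_filter.mp hx).2
    push Not at this
    exact ⟨this.2, this.1⟩
  obtain ⟨i, hi, hgi⟩ := hc (A × ℕ) F (fun i => i.1) hFn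
    (fun i hi => (hBp i.1 (hmem i hi)).1) (by
    intro φ hφT
    rw [hsum]
    have e1 : ∑ x ∈ B, (n x : ℂ) * φ x = N * ∑ x ∈ s, (w x : ℂ) * φ x - N * ∑ x ∈ G, (w x : ℂ) * φ x +
        ∑ x ∈ B, ((n x : ℂ) - N * w x) * φ x := by
      have h1 : ∑ x ∈ s, (w x : ℂ) * φ x = ∑ x ∈ G, (w x : ℂ) * φ x + ∑ x ∈ B, (w x : ℂ) * φ x :=
        (sum_filter_add_sum_filter_not _ _ _).symm
      have h2 : ∑ x ∈ B, ((n x : ℂ) - N * w x) * φ x =
          ∑ x ∈ B, (n x : ℂ) * φ x - N * ∑ x ∈ B, (w x : ℂ) * φ x := by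
        rw [mul_sum, ← sum_sub_distrib]
        refine sum_congr rfl fun x _ => ?_
        ring
      rw [h1, h2]
      ring
    have b1 : ‖∑ x ∈ G, (w x : ℂ) * φ x‖ ≤ 2 * E := by
      refine le_trans (norm_sum_le _ _) (le_trans (sum_le_sum fun x hx => ?_) hGE)
      rw [norm_mul]
      have h1 : ‖(w x : ℂ)‖ = w x := by
        rw [Complex.norm_real, Real.norm_of_nonneg (hw x (mem_filter.mp hx).1)]
      rw [h1]
      calc w x * ‖φ x‖ ≤ w x * 1 := mul_le_mul_of_nonneg_left (hT φ hφT x) (hw x (mem_filter.mp hx).1)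
        _ = _ := mul_one _
    have b2 : ‖∑ x ∈ B, ((n x : ℂ) - N * w x) * φ x‖ ≤ s.card := by
      refine le_trans (norm_sum_le _ _) (le_trans (sum_le_sum (g := fun _ => (1 : ℝ)) fun x hx => ?_) ?_)
      · rw [norm_mul]
        have h1 : ‖(n x : ℂ) - N * w x‖ ≤ 1 := by
          have h2 : ((n x : ℂ) - N * w x) = (((n x : ℝ) - N * w x : ℝ) : ℂ) := by push_cast; ring
          rw [h2, Complex.norm_real, Real.norm_eq_abs, abs_le]
          constructor
          · have := hn2 x hx; linarith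
          · have := hn1 x hx; linarith
        calc ‖(n x : ℂ) - N * w x‖ * ‖φ x‖ ≤ 1 * 1 :=
              mul_le_mul h1 (hT φ hφT x) (norm_nonneg _) zero_le_one
          _ = 1 := one_mul 1
      · simpa using hBc
    have hNn : ‖(N : ℂ)‖ = N := by simp
    rw [e1]
    calc ‖(N : ℂ) * ∑ x ∈ s, (w x : ℂ) * φ x - N * ∑ x ∈ G, (w x : ℂ) * φ x +
        ∑ x ∈ B, ((n x : ℂ) - N * w x) * φ x‖
        ≤ ‖(N : ℂ) * ∑ x ∈ s, (w x : ℂ) * φ x‖ + ‖(N : ℂ) * ∑ x ∈ G, (w x : ℂ) * φ x‖ +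
          ‖∑ x ∈ B, ((n x : ℂ) - N * w x) * φ x‖ :=
          le_trans (norm_add_le _ _) (by gcongr; exact norm_sub_le _ _)
      _ ≤ N * (2 * E) + N * (2 * E) + s.card := by
          rw [norm_mul, norm_mul, hNn]
          gcongr
          exact hφ φ hφT
      _ ≤ N * (5 * E) := by linarith
      _ ≤ F.card * (10 * E) := by
          have : (N : ℝ) / 2 * (10 * E) ≤ F.card * (10 * E) :=
            mul_le_mul_of_nonneg_right hcard3 (by linarith)
          linarith
      _ ≤ F.card * δ := mul_le_mul_of_nonneg_left hδ (Nat.cast_nonneg _))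
  exact (hBp i.1 (hmem i hi)).2 hgi

/-- random variables with values in a countable set -/
theorem random {A : Type} [Countable A] [MeasurableSpace A] [MeasurableSingletonClass A]
    (pre good : A → Prop) (T : Set (A → ℂ)) (δ E : ℝ)
    (hT : ∀ φ ∈ T, ∀ x, ‖φ x‖ ≤ 1) (hc : Crit pre good T δ) (hE : 0 < E) (hE1 : E ≤ 1 / 8)
    (hδ : 10 * E ≤ δ) (μ : Measure A) [IsProbabilityMeasure μ] (hp : μ.real {x | ¬ pre x} ≤ E)
    (hφ : ∀ φ ∈ T, ‖∫ x, φ x ∂μ‖ ≤ E) : E ≤ μ.real {x | good x} := by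
  classical
  have hall : ∀ S : Set A, MeasurableSet S := fun S => S.to_countable.measurableSet
  obtain ⟨s, hs⟩ : ∃ s : Finset A, 1 - E < ∑ x ∈ s, μ.real {x} := by
    have h1 : ∑' x, μ {x} = 1 := by
      have := Measure.tsum_indicator_apply_singleton μ Set.univ MeasurableSet.univ
      simpa using this
    have h2 : HasSum (fun x => μ {x}) 1 := by
      rw [← h1]; exact ENNReal.summable.hasSum
    have h3 : ENNReal.ofReal (1 - E) < 1 := by
      rw [← ENNReal.ofReal_one]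
      exact (ENNReal.ofReal_lt_ofReal_iff zero_lt_one).mpr (by linarith)
    obtain ⟨s, hs⟩ := (h2.eventually (lt_mem_nhds h3)).exists
    refine ⟨s, ?_⟩
    have h4 : ∑ x ∈ s, μ.real {x} = (∑ x ∈ s, μ {x}).toReal := by
      rw [ENNReal.toReal_sum (fun x _ => measure_ne_top _ _)]
      rfl
    rw [h4]
    have h5 : (∑ x ∈ s, μ {x}) ≠ ⊤ := (ENNReal.sum_lt_top.mpr fun x _ => measure_lt_top _ _).ne
    rw [ENNReal.ofReal_lt_iff_lt_toReal (by linarith) h5] at hs
    exact hs
  have hsm : ∑ x ∈ s, μ.real {x} = μ.real s := by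
    rw [← sum_measureReal_singleton]
  have hint : ∀ φ ∈ T, Integrable φ μ := by
    intro φ hφT
    refine Integrable.of_bound (C := 1) ?_ (Filter.Eventually.of_forall fun x => hT φ hφT x)
    exact (measurable_of_countable φ).aestronglyMeasurable
  obtain ⟨g, hgs, hgg, hgE⟩ := weights pre good T δ E hT hc hE hE1 hδ s (fun x => μ.real {x})
    (fun x _ => measureReal_nonneg) hs.le (by
    intro g _ hg
    have e1 : ∑ x ∈ g, μ.real {x} = μ.real g := by
      rw [← sum_measureReal_singleton]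
    rw [e1]
    exact le_trans (measureReal_mono (fun x hx => hg x (by simpa using hx))) hp) (by
    intro φ hφT
    have e1 : ∑ x ∈ s, ((μ.real {x} : ℝ) : ℂ) * φ x = ∫ x in (s : Set A), φ x ∂μ := by
      rw [setIntegral_finset s (hint φ hφT).integrableOn]
      refine sum_congr rfl fun x _ => ?_
      exact (Complex.real_smul).symm
    have e2 : ∫ x in (s : Set A), φ x ∂μ = ∫ x, φ x ∂μ - ∫ x in (s : Set A)ᶜ, φ x ∂μ := by
      rw [← integral_add_compl (hall (s : Set A)) (hint φ hφT)]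
      ring
    have e3 : ‖∫ x in (s : Set A)ᶜ, φ x ∂μ‖ ≤ E := by
      refine le_trans (norm_setIntegral_le_of_norm_le_const (C := 1) (measure_lt_top _ _)
        (fun x _ => hT φ hφT x)) ?_
      rw [one_mul, probReal_compl_eq_one_sub (hall _), ← hsm]
      linarith
    rw [e1, e2]
    refine le_trans (norm_sub_le _ _) ?_
    have := hφ φ hφT
    linarith)
  refine hgE.trans ?_
  have e1 : ∑ x ∈ g, μ.real {x} = μ.real g := by
    rw [← sum_measureReal_singleton]
  rw [e1]
  exact measureReal_mono (fun x hx => hgg x (by simpa using hx))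

end Pool.Agent.X29.EV
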