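import Pool.Agent.Y961.JR.ScaledJ
import Pool.Agent.X29.EV.Weights

set_option autoImplicit false

/-! # Random vectors: record prime gaps near all coordinates

The criteria of `Pool.Agent.Y961.JR` (helper961) for finite families are carried over to random
vectors. -/

namespace Pool.Agent.X29.EV

open Finset MeasureTheory Filter
open Pool.Agent.H469R2.NK (e norm_e e_add)
open Pool.Agent.W147.PS (ff ff_compare ev_pow)
open Pool.Agent.Y961.JR

/-- the tests of the joint distribution modulo `q` -/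
def testsZ (r : ℕ) (Q : ℝ) : Set ((Fin r → ℤ) → ℂ) :=
  {φ | ∃ (q : ℕ) (ρ : Fin r → ℤ), 1 ≤ q ∧ (q : ℝ) ≤ Q ∧
    φ = fun v => ({v : Fin r → ℤ | ∀ j, (q : ℤ) ∣ v j - ρ j}.indicator (fun _ => (1 : ℂ)) v) -
      ((1 / (q : ℝ) ^ r : ℝ) : ℂ)}

lemma testsZ_le (r : ℕ) (Q : ℝ) : ∀ φ ∈ testsZ r Q, ∀ x, ‖φ x‖ ≤ 1 := by
  classical
  rintro φ ⟨q, ρ, hq, -, rfl⟩ x
  have hq1 : (1 : ℝ) ≤ (q : ℝ) ^ r := one_le_pow₀ (by exact_mod_cast hq)
  have h1 : 1 / (q : ℝ) ^ r ≤ 1 := by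
    rw [div_le_one (by linarith)]
    exact hq1
  have h0 : 0 ≤ 1 / (q : ℝ) ^ r := by positivity
  simp only [Set.indicator_apply, Set.mem_setOf_eq]
  split_ifs
  · have : (1 : ℂ) - ((1 / (q : ℝ) ^ r : ℝ) : ℂ) = ((1 - 1 / (q : ℝ) ^ r : ℝ) : ℂ) := by push_cast; ring
    rw [this, Complex.norm_real, Real.norm_of_nonneg (by linarith)]
    linarith
  · rw [zero_sub, norm_neg, Complex.norm_real, Real.norm_of_nonneg h0]
    exact h1

open scoped Classical in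
lemma sum_testZ {ι : Type} {r : ℕ} (s : Finset ι) (v : ι → (Fin r → ℤ)) (q : ℕ) (ρ : Fin r → ℤ) :
    ∑ i ∈ s, (({v : Fin r → ℤ | ∀ j, (q : ℤ) ∣ v j - ρ j}.indicator (fun _ => (1 : ℂ)) (v i)) -
      ((1 / (q : ℝ) ^ r : ℝ) : ℂ)) =
    ((((s.filter (fun i => ∀ j, (q : ℤ) ∣ v i j - ρ j)).card : ℝ) - s.card / (q : ℝ) ^ r : ℝ) : ℂ) := by
  rw [sum_sub_distrib]
  have h1 : ∑ i ∈ s, ({v : Fin r → ℤ | ∀ j, (q : ℤ) ∣ v j - ρ j}.indicator (fun _ => (1 : ℂ)) (v i)) =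
      ((s.filter (fun i => ∀ j, (q : ℤ) ∣ v i j - ρ j)).card : ℂ) := by
    rw [card_filter]
    push_cast
    refine sum_congr rfl fun i _ => ?_
    simp only [Set.indicator_apply, Set.mem_setOf_eq]
  rw [h1, sum_const, nsmul_eq_mul]
  push_cast
  ring

lemma no_primeZ (κ X : ℝ) (h1 : κ * Pool.Agent.H256R2.SC.ff X + 1 ≤ (Real.log X) ^ 2)
    (h2 : (Real.log X) ^ 2 ≤ X / 2)
    (h3 : X ^ (1 / 10 : ℝ) < X / 2) (a : ℤ) (ha : X ≤ |(a : ℝ)|)
    (h : ∀ m : ℤ, |(m : ℝ) - a| ≤ κ * Pool.Agent.H256R2.SC.ff X + 1 →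
      ∃ p : ℕ, p.Prime ∧ (p : ℝ) ≤ X ^ (1 / 10 : ℝ) ∧ (p : ℤ) ∣ m) (q : ℕ) (hq : q.Prime) :
    κ * Pool.Agent.H256R2.SC.ff X < |(q : ℝ) - a| := by
  by_contra hcon
  push Not at hcon
  have h5 : |((q : ℤ) : ℝ) - a| ≤ κ * Pool.Agent.H256R2.SC.ff X + 1 := by
    push_cast
    linarith
  obtain ⟨p, hp, hpX, hpd⟩ := h q h5
  have h6 : p = q := (Nat.prime_dvd_prime_iff_eq hp hq).mp (by exact_mod_cast hpd)
  rw [h6] at hpX
  have h7 : |(a : ℝ)| ≤ |(q : ℝ) - a| + q := by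
    have h8 : (a : ℝ) = -((q : ℝ) - a) + q := by ring
    calc |(a : ℝ)| = |-((q : ℝ) - a) + q| := by rw [← h8]
      _ ≤ |-((q : ℝ) - a)| + |(q : ℝ)| := abs_add_le _ _
      _ = _ := by rw [abs_neg, Nat.abs_cast]
  linarith

/-- **Random vectors of integers** -/
theorem integers (r : ℕ) (hr : 1 ≤ r) (η : ℝ) (h0 : 0 < η) (h1 : η ≤ 1) :
    ∃ κ : ℝ, 0 < κ ∧ ∀ᶠ M : ℝ in atTop, ∀ (Ω : Type) (_ : MeasurableSpace Ω) (μ : Measure Ω),
    IsProbabilityMeasure μ → ∀ V : Ω → Fin r → ℤ, Measurable V →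
    μ.real {x | ∃ j, |(V x j : ℝ)| < M ^ η} ≤ M ^ (-η) →
    (∀ q : ℕ, 1 ≤ q → (q : ℝ) ≤ M ^ η → ∀ ρ : Fin r → ℤ,
      |μ.real {x | ∀ j, (q : ℤ) ∣ V x j - ρ j} - 1 / (q : ℝ) ^ r| ≤ M ^ (-η)) →
    M ^ (-η) ≤ μ.real {x | ∀ j, ∀ p : ℕ, p.Prime → κ * ff M < |(p : ℝ) - V x j|} := by
  classical
  obtain ⟨κ, hκ, X₀, hc⟩ := critJ r hr
  have hr1 : (1 : ℝ) ≤ r := by exact_mod_cast hr
  obtain ⟨θ, hθ⟩ : ∃ θ : ℝ, θ = η / (4 * r) := ⟨_, rfl⟩
  have hθ0 : 0 < θ := by rw [hθ]; positivity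
  have hθη : θ ≤ η := by rw [hθ]; exact div_le_self h0.le (by linarith)
  have hθ1 : θ ≤ 1 := hθη.trans h1
  refine ⟨κ * (θ / 32), by positivity, ?_⟩
  filter_upwards [ff_compare θ hθ0 hθ1, (tendsto_rpow_atTop hθ0).eventually_ge_atTop X₀,
    eventually_ge_atTop (1 : ℝ), (tendsto_rpow_atTop hθ0).eventually ev_small,
    ev_pow (-η) (-(η / 2)) 10 (by linarith), ev_pow (-η) 0 8 (by linarith)]
    with M hM hMX hM1 hMs hM10 hM8
  intro Ω _ μ hμ V hV hpre hdist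
  have hM0 : 0 < M := by linarith
  have hmono : ∀ x y : ℝ, x ≤ y → M ^ x ≤ M ^ y := fun x y h =>
    Real.rpow_le_rpow_of_exponent_le hM1 h
  obtain ⟨X, hX⟩ : ∃ X : ℝ, X = M ^ θ := ⟨_, rfl⟩
  rw [← hX] at hMX hMs
  obtain ⟨hc1, hc2⟩ := hc X hMX
  have hδ : X ^ (-(2 * (r : ℝ))) = M ^ (-(η / 2)) := by
    rw [hX, ← Real.rpow_mul hM0.le]
    congr 1
    rw [hθ]
    field_simp
    norm_num
  have hXQ : X ^ (2 / 5 : ℝ) ≤ M ^ η := by
    rw [hX, ← Real.rpow_mul hM0.le]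
    apply hmono
    linarith
  have hXM : X ≤ M ^ η := by rw [hX]; exact hmono _ _ hθη
  rw [Real.rpow_zero] at hM8
  have hE0 : 0 < M ^ (-η) := Real.rpow_pos_of_pos hM0 _
  obtain ⟨pre, hpre'⟩ : ∃ pre : (Fin r → ℤ) → Prop, pre = fun v => ∀ j, M ^ η ≤ |(v j : ℝ)| := ⟨_, rfl⟩
  obtain ⟨good, hgood⟩ : ∃ good : (Fin r → ℤ) → Prop,
    good = fun v => ∀ j, ∀ p : ℕ, p.Prime → κ * (θ / 32) * ff M < |(p : ℝ) - v j| := ⟨_, rfl⟩
  have hcrit : Crit pre good (testsZ r (X ^ (2 / 5 : ℝ))) (M ^ (-(η / 2))) := by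
    intro ι s a hs ha hE
    obtain ⟨i, hi, hi2⟩ := hc2 ι s a hs (by
      intro q hq hqX ρ
      have h2 := hE _ ⟨q, ρ, hq, hqX, rfl⟩
      rw [sum_testZ, Complex.norm_real, Real.norm_eq_abs, ← hδ] at h2
      exact h2)
    refine ⟨i, hi, ?_⟩
    rw [hgood]
    intro j p hp
    have h3 := ha i hi
    rw [hpre'] at h3
    have h4 := no_primeZ κ X hc1 hMs.1 hMs.2 (a i j) (hXM.trans (h3 j)) (hi2 j) p hp
    refine lt_of_le_of_lt ?_ h4
    rw [hX]
    exact ff_scaled κ θ M hκ hθ1 hM1 hM.2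
  have hmap : IsProbabilityMeasure (μ.map V) := Measure.isProbabilityMeasure_map hV.aemeasurable
  have hall : ∀ S : Set (Fin r → ℤ), MeasurableSet S := fun S => S.to_countable.measurableSet
  have hreal : ∀ S : Set (Fin r → ℤ), (μ.map V).real S = μ.real (V ⁻¹' S) := fun S =>
    map_measureReal_apply hV (hall S)
  have key := random pre good (testsZ r (X ^ (2 / 5 : ℝ))) (M ^ (-(η / 2))) (M ^ (-η))
    (testsZ_le r _) hcrit hE0 (by linarith) hM10 (μ.map V) (by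
    rw [hreal]
    refine le_trans (measureReal_mono ?_) hpre
    intro x hx
    rw [Set.mem_preimage, Set.mem_setOf_eq, hpre'] at hx
    push Not at hx
    exact hx) (by
    rintro φ ⟨q, ρ, hq, hqX, rfl⟩
    have hi1 : Integrable (fun v : Fin r → ℤ =>
        ({v : Fin r → ℤ | ∀ j, (q : ℤ) ∣ v j - ρ j}.indicator (fun _ => (1 : ℂ)) v)) (μ.map V) :=
      (integrable_const _).indicator (hall _)
    rw [integral_sub hi1 (integrable_const _), integral_indicator_const _ (hall _), integral_const,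
      probReal_univ, hreal]
    have e1 : μ.real (V ⁻¹' {v : Fin r → ℤ | ∀ j, (q : ℤ) ∣ v j - ρ j}) • (1 : ℂ) -
        (1 : ℝ) • ((1 / (q : ℝ) ^ r : ℝ) : ℂ) =
        ((μ.real {x | ∀ j, (q : ℤ) ∣ V x j - ρ j} - 1 / (q : ℝ) ^ r : ℝ) : ℂ) := by
      rw [one_smul, Complex.real_smul, mul_one]
      push_cast
      rfl
    rw [e1, Complex.norm_real, Real.norm_eq_abs]
    exact hdist q hq (hqX.trans hXQ) ρ)
  rw [hreal, hgood] at key
  exact key

lemma e_sub (x y : ℝ) : ‖e x - e y‖ ≤ 2 * Real.pi * |x - y| := by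
  have h1 : e x = e y * e (x - y) := by rw [← e_add]; congr 1; ring
  have h2 : e x - e y = e y * (e (x - y) - 1) := by rw [h1]; ring
  rw [h2, norm_mul, norm_e, one_mul]
  unfold e
  have h3 := Real.norm_exp_I_mul_ofReal_sub_one_le (x := 2 * Real.pi * (x - y))
  rw [mul_comm Complex.I] at h3
  refine h3.trans (le_of_eq ?_)
  rw [Real.norm_eq_abs, abs_mul, abs_of_pos (by positivity : (0 : ℝ) < 2 * Real.pi)]

lemma e_meas : Measurable e := by
  unfold e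
  fun_prop

/-- the tests at the small rational vectors, for the points of the grid `ℤ / D` -/
def testsR (r D : ℕ) (Q : ℝ) : Set ((Fin r → ℤ) → ℂ) :=
  {φ | ∃ (q : ℕ) (h : Fin r → ℤ), 1 ≤ q ∧ (q : ℝ) ≤ Q ∧ h ≠ 0 ∧ (∀ j, |(h j : ℝ)| ≤ Q) ∧
    φ = fun w => e (∑ j, (h j : ℝ) * ((w j / D : ℝ) / q))}

/-- **Random vectors of real numbers** -/
theorem reals (r : ℕ) (hr : 1 ≤ r) (η : ℝ) (h0 : 0 < η) (h1 : η ≤ 1) :
    ∃ κ : ℝ, 0 < κ ∧ ∀ᶠ M : ℝ in atTop, ∀ (Ω : Type) (_ : MeasurableSpace Ω) (μ : Measure Ω),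
    IsProbabilityMeasure μ → ∀ V : Ω → Fin r → ℝ, Measurable V →
    μ.real {x | ∃ j, V x j < M ^ η} ≤ M ^ (-η) →
    (∀ q : ℕ, 1 ≤ q → (q : ℝ) ≤ M ^ η → ∀ h : Fin r → ℤ, h ≠ 0 → (∀ j, |(h j : ℝ)| ≤ M ^ η) →
      ‖∫ x, e (∑ j, (h j : ℝ) * (V x j / q)) ∂μ‖ ≤ M ^ (-η)) →
    M ^ (-η) ≤ μ.real {x | ∀ j, ∀ p : ℕ, p.Prime → κ * ff M < |(p : ℝ) - V x j|} := by
  classical
  obtain ⟨κ, hκ, hc⟩ := crit_scaledJ r hr (η / 2) (by linarith) (by linarith)
  have hr1 : (1 : ℝ) ≤ r := by exact_mod_cast hr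
  refine ⟨κ / 2, by positivity, ?_⟩
  filter_upwards [hc, ff_compare 1 one_pos le_rfl, eventually_ge_atTop (1 : ℝ),
    ev_pow (-η) (-(η / 2)) 20 (by linarith), ev_pow (-η) 0 16 (by linarith),
    Real.tendsto_log_atTop.eventually_ge_atTop (2 / κ), ev_pow (η / 2) η 2 (by linarith),
    ev_pow (η / 2 - 2) (-η) (2 * Real.pi * r) (by linarith)]
    with M hcM hff hM1 hM20 hM16 hMlog hM2 hMpi
  intro Ω _ μ hμ V hV hpre hdist
  have hM0 : 0 < M := by linarith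
  have hmono : ∀ x y : ℝ, x ≤ y → M ^ x ≤ M ^ y := fun x y h =>
    Real.rpow_le_rpow_of_exponent_le hM1 h
  rw [Real.rpow_zero] at hM16
  have hE0 : 0 < M ^ (-η) := Real.rpow_pos_of_pos hM0 _
  have hη2 : 1 ≤ M ^ (η / 2) := by
    have := hmono 0 (η / 2) (by linarith)
    rwa [Real.rpow_zero] at this
  obtain ⟨D, hD⟩ : ∃ D : ℕ, M ^ (2 : ℝ) ≤ D := exists_nat_ge _
  have hM21 : (1 : ℝ) ≤ M ^ (2 : ℝ) := by
    have := hmono 0 2 (by norm_num)
    rwa [Real.rpow_zero] at this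
  have hD1 : (1 : ℝ) ≤ D := hM21.trans hD
  have hD0 : (0 : ℝ) < D := by linarith
  obtain ⟨W, hW⟩ : ∃ W : Ω → Fin r → ℤ, W = fun x j => ⌊(D : ℝ) * V x j⌋ := ⟨_, rfl⟩
  have hWm : Measurable W := by
    rw [hW]
    refine measurable_pi_lambda _ fun j => ?_
    exact Int.measurable_floor.comp (((measurable_pi_apply j).comp hV).const_mul _)
  have hWV : ∀ x j, |(W x j : ℝ) / D - V x j| ≤ 1 / D := by
    intro x j
    have h2 := Int.floor_le ((D : ℝ) * V x j)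
    have h3 := Int.lt_floor_add_one ((D : ℝ) * V x j)
    have e1 : (W x j : ℝ) / D - V x j = ((W x j : ℝ) - D * V x j) / D := by
      field_simp
    rw [e1, abs_div, abs_of_pos hD0]
    apply div_le_div_of_nonneg_right _ hD0.le
    rw [hW]
    rw [abs_le]
    constructor <;> linarith
  have h1D : 1 / (D : ℝ) ≤ 1 := by
    rw [div_le_one hD0]
    exact hD1
  obtain ⟨pre, hpre'⟩ : ∃ pre : (Fin r → ℤ) → Prop,
    pre = fun w => ∀ j, M ^ (η / 2) ≤ ((w j : ℝ) / D) := ⟨_, rfl⟩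
  obtain ⟨good, hgood⟩ : ∃ good : (Fin r → ℤ) → Prop,
    good = fun w => ∀ j, ∀ p : ℕ, p.Prime → κ * ff M < |(p : ℝ) - (w j : ℝ) / D| := ⟨_, rfl⟩
  have hcrit : Crit pre good (testsR r D (M ^ (η / 2))) (M ^ (-(η / 2))) := by
    intro ι s a hs ha hE
    obtain ⟨i, hi, hi2⟩ := hcM ι s (fun i j => (a i j : ℝ) / D) hs (by
      intro i hi j
      have h3 := ha i hi
      rw [hpre'] at h3
      exact h3 j) (by
      intro q hq hqX h hh hhQ
      exact hE _ ⟨q, h, hq, hqX, hh, hhQ, rfl⟩)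
    refine ⟨i, hi, ?_⟩
    rw [hgood]
    exact hi2
  have hmap : IsProbabilityMeasure (μ.map W) := Measure.isProbabilityMeasure_map hWm.aemeasurable
  have hall : ∀ S : Set (Fin r → ℤ), MeasurableSet S := fun S => S.to_countable.measurableSet
  have hreal : ∀ S : Set (Fin r → ℤ), (μ.map W).real S = μ.real (W ⁻¹' S) := fun S =>
    map_measureReal_apply hWm (hall S)
  have key := random pre good (testsR r D (M ^ (η / 2))) (M ^ (-(η / 2))) (2 * M ^ (-η))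
    (by
      rintro φ ⟨q, h, -, -, -, -, rfl⟩ x
      exact (norm_e _).le) hcrit (by positivity) (by linarith) (by linarith) (μ.map W) (by
    rw [hreal]
    refine le_trans (measureReal_mono ?_) (hpre.trans (by linarith))
    intro x hx
    rw [Set.mem_preimage, Set.mem_setOf_eq, hpre'] at hx
    push Not at hx
    obtain ⟨j, hj⟩ := hx
    refine ⟨j, ?_⟩
    have h3 := abs_le.mp (hWV x j)
    linarith [h3.1]) (by
    rintro φ ⟨q, h, hq, hqX, hh, hhQ, rfl⟩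
    have hq0 : (1 : ℝ) ≤ q := by exact_mod_cast hq
    rw [integral_map hWm.aemeasurable (measurable_of_countable _).aestronglyMeasurable]
    have hQ : M ^ (η / 2) ≤ M ^ η := hmono _ _ (by linarith)
    have h3 := hdist q hq (hqX.trans hQ) h hh (fun j => (hhQ j).trans hQ)
    have hm1 : Measurable (fun x => e (∑ j, (h j : ℝ) * (V x j / q))) := by
      refine e_meas.comp ?_
      refine Finset.measurable_sum _ fun j _ => ?_
      exact (((measurable_pi_apply j).comp hV).div_const _).const_mul _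
    have hm2 : Measurable (fun x => e (∑ j, (h j : ℝ) * (((W x j : ℝ) / D) / q))) :=
      (measurable_of_countable (fun w : Fin r → ℤ =>
        e (∑ j, (h j : ℝ) * (((w j : ℝ) / D) / q)))).comp hWm
    have hi1 : Integrable (fun x => e (∑ j, (h j : ℝ) * (V x j / q))) μ :=
      Integrable.of_bound (C := 1) hm1.aestronglyMeasurable
        (Filter.Eventually.of_forall fun x => (norm_e _).le)
    have hi2 : Integrable (fun x => e (∑ j, (h j : ℝ) * (((W x j : ℝ) / D) / q))) μ :=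
      Integrable.of_bound (C := 1) hm2.aestronglyMeasurable
        (Filter.Eventually.of_forall fun x => (norm_e _).le)
    have h4 : ‖∫ x, (e (∑ j, (h j : ℝ) * (((W x j : ℝ) / D) / q)) -
        e (∑ j, (h j : ℝ) * (V x j / q))) ∂μ‖ ≤ M ^ (-η) := by
      refine le_trans (norm_integral_le_of_norm_le_const (C := M ^ (-η)) (Filter.Eventually.of_forall
        fun x => ?_)) (by rw [probReal_univ, mul_one])
      refine (e_sub _ _).trans ?_
      rw [← sum_sub_distrib]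
      have h5 : |∑ j, ((h j : ℝ) * (((W x j : ℝ) / D) / q) - (h j : ℝ) * (V x j / q))| ≤
          r * (M ^ (η / 2) * (1 / D)) := by
        refine (abs_sum_le_sum_abs _ _).trans ?_
        refine le_trans (sum_le_sum (g := fun _ => M ^ (η / 2) * (1 / D)) fun j _ => ?_) (by simp)
        have e1 : (h j : ℝ) * (((W x j : ℝ) / D) / q) - (h j : ℝ) * (V x j / q) =
            (h j : ℝ) * (((W x j : ℝ) / D - V x j) / q) := by ring
        rw [e1, abs_mul]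
        refine mul_le_mul (hhQ j) ?_ (abs_nonneg _) (by linarith)
        rw [abs_div, abs_of_pos (by linarith : (0 : ℝ) < q)]
        exact (div_le_self (abs_nonneg _) hq0).trans (hWV x j)
      have h6 : 1 / (D : ℝ) ≤ M ^ (-2 : ℝ) := by
        rw [Real.rpow_neg hM0.le, ← one_div]
        exact one_div_le_one_div_of_le (by linarith) hD
      have h7 : M ^ (η / 2) * (1 / (D : ℝ)) ≤ M ^ (η / 2 - 2) := by
        calc M ^ (η / 2) * (1 / (D : ℝ)) ≤ M ^ (η / 2) * M ^ (-2 : ℝ) :=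
              mul_le_mul_of_nonneg_left h6 (by linarith)
          _ = _ := by rw [← Real.rpow_add hM0]; congr 1
      calc 2 * Real.pi * |∑ j, ((h j : ℝ) * (((W x j : ℝ) / D) / q) - (h j : ℝ) * (V x j / q))|
          ≤ 2 * Real.pi * (r * M ^ (η / 2 - 2)) := by
            refine mul_le_mul_of_nonneg_left (h5.trans ?_) (by positivity)
            exact mul_le_mul_of_nonneg_left h7 (by linarith)
        _ = 2 * Real.pi * r * M ^ (η / 2 - 2) := by ring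
        _ ≤ _ := hMpi
    rw [integral_sub hi2 hi1] at h4
    have h8 := norm_le_insert' (∫ x, e (∑ j, (h j : ℝ) * (((W x j : ℝ) / D) / q)) ∂μ)
      (∫ x, e (∑ j, (h j : ℝ) * (V x j / q)) ∂μ)
    linarith)
  rw [hreal] at key
  have h9 : M ^ (-η) ≤ 2 * M ^ (-η) := by linarith
  refine h9.trans (key.trans (measureReal_mono ?_))
  intro x hx j p hp
  rw [Set.mem_preimage, Set.mem_setOf_eq, hgood] at hx
  have h10 := hx j p hp
  have h11 := hWV x j
  have h12 : |(p : ℝ) - (W x j : ℝ) / D| ≤ |(p : ℝ) - V x j| + 1 := by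
    have e1 : (p : ℝ) - (W x j : ℝ) / D = ((p : ℝ) - V x j) + -((W x j : ℝ) / D - V x j) := by ring
    rw [e1]
    refine (abs_add_le _ _).trans ?_
    rw [abs_neg]
    linarith
  have h13 : 1 ≤ κ / 2 * ff M := by
    have h14 : 2 / κ ≤ ff M := hMlog.trans hff.1
    rw [div_le_iff₀ hκ] at h14
    linarith
  have h15 : κ * ff M = κ / 2 * ff M + κ / 2 * ff M := by ring
  linarith

end Pool.Agent.X29.EV
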